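import Pool.Agent.Q238.MK.Rot3

/-!
# Rotations of inverse descent classes

`Q(C_n D_{n-1,J}^{-1}) = Q(D_{n-1,J}^{-1} C_n)` for every `n ≥ 2` and every `J`.

Idea of the proof: pass to the classes `Des(π⁻¹) ⊆ K` and to the coefficients of the monomials
`x_{r 1} ... x_{r n}` (`r` weakly increasing); let `s` be the step function of `K ∪ {n-1}`. The right
side counts the rearrangements `w` of `s` that are weakly increasing on the fibres of `r`, equivalently
the rearrangements `w` of `r` that are weakly increasing on the fibres of `s`. The left side counts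
pairs of a position and such a `w` whose last entry is maximal, and a bijection that exchanges the last
entry with a maximal entry identifies the two numbers.
-/

set_option autoImplicit false

namespace Pool.Agent.Results.MP_f75e32_co.RotationsCommute

open Q238.MK

/-- For `n = m + 1 ≥ 2` and every `J`: `Q(C_n D_{n-1,J}^{-1}) = Q(D_{n-1,J}^{-1} C_n)`. -/
theorem result (m : ℕ) (hm : 1 ≤ m) (J : Finset ℕ) :
    genQ (mulMS (cyc (m + 1)) (invDesFix m J)) = genQ (mulMS (invDesFix m J) (cyc (m + 1))) := by
  obtain ⟨k, rfl⟩ : ∃ k, m = k + 1 := ⟨m - 1, by omega⟩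
  exact main_rot k J

end Pool.Agent.Results.MP_f75e32_co.RotationsCommute
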